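import Pool.Agent.Lib.MP_ab8df0_nt.T.B31.Main

/-! Solutions of `x ^ 4 + 3 y ^ 3 + z ^ 3 = 0` with `y` odd where `-(z + y t)`, `t ^ 3 = 3`,
is a square: there are none, by an elementary descent. -/

namespace Pool.Agent.Lib.MP_ab8df0_nt.T.B20e

open Pool.Agent.Lib.MP_ab8df0_nt.C

/-- the curve of genus two -/
lemma core (m n x : ℤ) (hmn : IsCoprime m n) (hn : Odd n) (h3 : ¬ 3 ∣ m)
    (h : x ^ 2 = 9 * n ^ 6 + 60 * m ^ 3 * n ^ 3 - 8 * m ^ 6)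
    (hA : ¬ 3 ∣ 3 * n ^ 3 + 10 * m ^ 3 - x) : False := by
  have hn3' := Int.odd_iff.1 (hn.pow (n := 3))
  have hx : x % 2 = 1 := by
    rcases Int.even_or_odd x with ⟨c, rfl⟩ | hx
    · have := Int.odd_iff.1 (hn.pow (n := 6))
      have h1 : n ^ 6 = 2 * (2 * c ^ 2 - 4 * n ^ 6 - 30 * m ^ 3 * n ^ 3 + 4 * m ^ 6) := by
        linear_combination -h
      omega
    · exact Int.odd_iff.1 hx
  obtain ⟨P, hP⟩ : (2 : ℤ) ∣ 3 * n ^ 3 + 10 * m ^ 3 - x := by omega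
  obtain ⟨R, hR⟩ : (2 : ℤ) ∣ 3 * n ^ 3 + 10 * m ^ 3 + x := by omega
  have hP3 : ¬ 3 ∣ P := fun h => hA (hP ▸ h.mul_left _)
  have h1 : P * R = 3 ^ 3 * m ^ 6 := by
    have : 2 * P * (2 * R) = 108 * m ^ 6 := by rw [← hP, ← hR]; linear_combination -h
    linarith
  obtain ⟨R, rfl⟩ : (3 : ℤ) ^ 3 ∣ R :=
    (Int.prime_three.coprime_iff_not_dvd.2 hP3).pow_left.dvd_of_dvd_mul_left ⟨_, h1⟩
  have h2 : P * R = (m ^ 3) ^ 2 := by linarith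
  have hs : P + 27 * R = 3 * n ^ 3 + 10 * m ^ 3 := by linarith
  have hm0 : m ≠ 0 := fun h0 => h3 (by simp [h0])
  have hPR : IsCoprime P R := by
    refine isCoprime_of_prime_dvd (fun h0 => hP3 (by simp [h0.1])) fun p hp p0 p1 => ?_
    have h4 : p ∣ 3 * n ^ 3 + 10 * m ^ 3 := hs ▸ p0.add (p1.mul_left _)
    have h5 := hp.dvd_of_dvd_pow (h2 ▸ p0.mul_right R)
    have h6 := hp.dvd_of_dvd_pow h5
    rcases hp.dvd_or_dvd ((dvd_add_left (h5.mul_left 10)).1 h4) with h7 | h7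
    · exact hp.not_isUnit ((Int.prime_three.coprime_iff_not_dvd.2 h3).isUnit_of_dvd' h7 h6)
    · exact hp.not_isUnit (hmn.isUnit_of_dvd' h6 (hp.dvd_of_dvd_pow h7))
  have fin : ∀ p q m n : ℤ, Odd n → IsCoprime (p ^ 2) (q ^ 2) → ¬ 3 ∣ p ^ 2 →
      p ^ 2 * q ^ 2 = (m ^ 3) ^ 2 → p ^ 2 + 27 * q ^ 2 = 3 * n ^ 3 + 10 * m ^ 3 → False := by
    have fin' : ∀ p q m n : ℤ, Odd n → IsCoprime p q → ¬ 3 ∣ p → p * q = m ^ 3 →
        p ^ 2 + 27 * q ^ 2 = 3 * n ^ 3 + 10 * m ^ 3 → False := by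
      intro p q m n hn hc h3 h1 h2
      obtain ⟨r, hr⟩ := B31.cube_of p q m hc h1
      exact B31.nocube p q n r hc hn h3 (by linarith) (Or.inl hr)
    intro p q m n hn hc h3 h1 h2
    have hc' := (IsCoprime.pow_iff (by norm_num) (by norm_num)).1 hc
    have h3' : ¬ 3 ∣ p := fun h => h3 (dvd_pow h (by norm_num))
    rcases sq_eq_sq_iff_eq_or_eq_neg.1 (show (p * q) ^ 2 = (m ^ 3) ^ 2 by linarith) with h | h
    · exact fin' p q m n hn hc' h3' h h2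
    · exact fin' p (-q) m n hn hc'.neg_right h3' (by linarith) (by linarith)
  have hpos : 0 < P * R := by rw [h2]; positivity
  obtain ⟨p, hp | hp⟩ := Int.sq_of_isCoprime hPR h2 <;>
    obtain ⟨q, hq | hq⟩ := Int.sq_of_isCoprime hPR.symm (by rw [mul_comm]; exact h2) <;>
    subst hp hq
  · exact fin p q m n hn hPR hP3 h2 hs
  · nlinarith [mul_nonneg (sq_nonneg p) (sq_nonneg q)]
  · nlinarith [mul_nonneg (sq_nonneg p) (sq_nonneg q)]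
  · exact fin p q (-m) (-n) hn.neg ((IsCoprime.neg_neg_iff _ _).1 hPR) (by simpa using hP3)
      (by linarith) (by linarith)

/-- the two quartic forms of the parametrisation have no common square factor -/
lemma unit_j (m n j y z : ℤ) (hmn : IsCoprime m n) (hj : Odd j)
    (h1 : n * (3 * n ^ 3 - 8 * m ^ 3) = -y * j ^ 2)
    (h2 : 4 * (m * (m ^ 3 + 3 * n ^ 3)) = -z * j ^ 2) : j ^ 2 = 1 := by
  have hj2 : IsCoprime j 2 :=
    (Int.prime_two.coprime_iff_not_dvd.2 (by have := Int.odd_iff.1 hj; omega)).symm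
  have hj3 : IsCoprime j 3 := by
    refine (Int.prime_three.coprime_iff_not_dvd.2 ?_).symm
    rintro ⟨c, rfl⟩
    have h3 : (3 : ℤ) ∣ m := Int.prime_three.dvd_of_dvd_pow (n := 4)
      ⟨-m ^ 4 - 4 * m * n ^ 3 - 3 * z * c ^ 2, by linear_combination h2⟩
    obtain ⟨m, rfl⟩ := h3
    have h4 : (3 : ℤ) ∣ n := Int.prime_three.dvd_of_dvd_pow (n := 4)
      ⟨24 * m ^ 3 * n - y * c ^ 2, by linarith⟩
    exact Int.prime_three.not_isUnit (hmn.isUnit_of_dvd' ⟨m, rfl⟩ h4)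
  have hm : j ∣ 2 ^ 2 * 3 ^ 2 * m ^ 7 :=
    ⟨j * (-12 * m * n ^ 2 * y - (9 * m ^ 3 - 3 * n ^ 3) * z), by
      linear_combination 12 * m * n ^ 2 * h1 + (9 * m ^ 3 - 3 * n ^ 3) * h2⟩
  have hn : j ∣ 3 ^ 4 * n ^ 7 :=
    ⟨j * (-(27 * n ^ 3 + 8 * m ^ 3) * y - 16 * m ^ 2 * n * z), by
      linear_combination (27 * n ^ 3 + 8 * m ^ 3) * h1 + 16 * m ^ 2 * n * h2⟩
  have hu := (hmn.pow (m := 7) (n := 7)).isUnit_of_dvd'
    ((hj2.pow_right.mul_right hj3.pow_right).dvd_of_dvd_mul_left hm)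
    (hj3.pow_right.dvd_of_dvd_mul_left hn)
  rcases Int.isUnit_iff.1 hu with rfl | rfl <;> norm_num

lemma param (y z : ℤ) (hyz : IsCoprime y z) (hy : ¬ 2 ∣ y) (b0 b1 b2 : ℚ)
    (e0 : b0 ^ 2 + 6 * b1 * b2 = -z) (e1 : 2 * b0 * b1 + 3 * b2 ^ 2 = -y)
    (e2 : b1 ^ 2 + 2 * b0 * b2 = 0) : ∃ m n : ℤ, IsCoprime m n ∧ Odd n ∧
      y = -(n * (3 * n ^ 3 - 8 * m ^ 3)) ∧ z = -(4 * (m * (m ^ 3 + 3 * n ^ 3))) := by
  have hb2 : b2 ≠ 0 := by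
    rintro rfl
    obtain rfl : b1 = 0 := pow_eq_zero_iff (n := 2) two_ne_zero |>.1 (by linarith)
    have : (y : ℚ) = 0 := by linarith
    have : y = 0 := by exact_mod_cast this
    omega
  obtain ⟨M, n, hMn, hn0, hr⟩ : ∃ M n : ℤ, IsCoprime M n ∧ (n : ℚ) ≠ 0 ∧ b1 * n = M * b2 :=
    ⟨(b1 / b2).num, (b1 / b2).den, Int.isCoprime_iff_gcd_eq_one.2 (b1 / b2).reduced,
      by exact_mod_cast (b1 / b2).den_nz, by
        rw [Int.cast_natCast, ← Rat.mul_den_eq_num]; field_simp⟩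
  obtain ⟨k, rfl⟩ : ∃ k, b2 = k * n ^ 2 := ⟨b2 / n ^ 2, by field_simp⟩
  obtain rfl : b1 = k * M * n := mul_right_cancel₀ hn0 (by linear_combination hr)
  obtain rfl : b0 = -(k * M ^ 2 / 2) := mul_right_cancel₀ hb2 (by linear_combination e2 / 2)
  obtain ⟨a, b, hab⟩ := hyz
  obtain ⟨U, hU⟩ : ∃ U : ℤ, U = n * (3 * n ^ 3 - M ^ 3) := ⟨_, rfl⟩
  obtain ⟨V, hV⟩ : ∃ V : ℤ, V = M * (M ^ 3 + 24 * n ^ 3) := ⟨_, rfl⟩
  have f1 : k ^ 2 * U = -y := by rw [hU]; push_cast; linear_combination e1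
  have f0 : k ^ 2 * V = -4 * z := by rw [hV]; push_cast; linear_combination 4 * e0
  obtain ⟨W, hW⟩ : ∃ W : ℤ, W = 4 * a * U + b * V := ⟨_, rfl⟩
  have hab' : (a : ℚ) * y + b * z = 1 := by exact_mod_cast hab
  have f2 : k ^ 2 * W = -4 := by
    rw [hW]; push_cast; linear_combination 4 * a * f1 + b * f0 - 4 * hab'
  have hk : k ≠ 0 := by rintro rfl; norm_num at f2
  obtain ⟨j, hj⟩ : IsSquare (-W) := Rat.isSquare_intCast_iff.1 ⟨2 / k, by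
    push_cast; field_simp; linear_combination -f2⟩
  have g1 : 4 * U = y * W := by
    have : (4 * U : ℚ) = y * W := by linear_combination (-(W : ℚ)) * f1 + (U : ℚ) * f2
    exact_mod_cast this
  have g0 : V = z * W := by
    have : (V : ℚ) = z * W := by linear_combination (-(W : ℚ) / 4) * f0 + (V / 4 : ℚ) * f2
    exact_mod_cast this
  have ev : ∀ (u : ℤ) (e : ℕ), 2 ∣ u ^ e → 2 ∣ u := fun u e h => Int.prime_two.dvd_of_dvd_pow h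
  have evy : ∀ u : ℤ, 2 ∣ y * u ^ 2 → 2 ∣ u := fun u h =>
    ev u 2 ((Int.prime_two.dvd_or_dvd h).resolve_left hy)
  obtain rfl : W = -j ^ 2 := by linarith
  obtain ⟨j, rfl⟩ := evy j ⟨-2 * U, by linarith⟩
  obtain ⟨m, rfl⟩ := ev M 4 ⟨-2 * z * j ^ 2 - 12 * M * n ^ 3, by linarith⟩
  have hn : ¬ 2 ∣ n := fun h => Int.prime_two.not_isUnit (hMn.isUnit_of_dvd' ⟨m, rfl⟩ h)
  have k1 : n * (3 * n ^ 3 - 8 * m ^ 3) = -y * j ^ 2 := by linarith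
  have k0 : 4 * (m * (m ^ 3 + 3 * n ^ 3)) = -z * j ^ 2 := by linarith
  have hmn : IsCoprime m n := hMn.of_mul_left_right
  have hj1 : Odd j := by
    rcases Int.even_or_odd' j with ⟨c, rfl | rfl⟩
    · exact (hn (ev n 4 ⟨2 * n ^ 4 - 4 * m ^ 3 * n + 2 * y * c ^ 2, by linarith⟩)).elim
    · exact ⟨c, rfl⟩
  have := unit_j m n j y z hmn hj1 k1 k0
  exact ⟨m, n, hmn, Int.odd_iff.2 (by omega), by linear_combination k1 - y * this,
    by linear_combination k0 - z * this⟩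

/-- `-(z + y t)` is not a square if `y` is odd -/
theorem nosq {x y z : ℤ} (hyz : IsCoprime y z)
    (h : 1 ^ 2 * x ^ 4 + 3 * y ^ 3 + (1 * z) ^ 3 = 0) (hy : ¬ 2 ∣ y) (b0 b1 b2 : ℚ)
    (e0 : b0 ^ 2 + 6 * b1 * b2 = -z) (e1 : 2 * b0 * b1 + 3 * b2 ^ 2 = -y)
    (e2 : b1 ^ 2 + 2 * b0 * b2 = 0) : False := by
  obtain ⟨m, n, hmn, hn, rfl, rfl⟩ := param y z hyz hy b0 b1 b2 e0 e1 e2
  have h3 : ¬ 3 ∣ m := by
    rintro ⟨m, rfl⟩
    exact Int.prime_three.not_isUnit (hyz.isUnit_of_dvd' ⟨-(n * (n ^ 3 - 72 * m ^ 3)), by ring⟩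
      ⟨-(4 * (m * (27 * m ^ 3 + 3 * n ^ 3))), by ring⟩)
  have h4 : (x ^ 2) ^ 2 = (9 * n ^ 6 + 60 * m ^ 3 * n ^ 3 - 8 * m ^ 6) ^ 2 := by
    linear_combination h
  have h5 : x ^ 2 = 9 * n ^ 6 + 60 * m ^ 3 * n ^ 3 - 8 * m ^ 6 := by
    refine (sq_eq_sq_iff_eq_or_eq_neg.1 h4).resolve_right fun h5 => ?_
    obtain ⟨c, hc⟩ := hn.pow (n := 3)
    have h6 : x ^ 2 = 4 * (-9 * c ^ 2 - 9 * c - 3 - 15 * m ^ 3 * n ^ 3 + 2 * m ^ 6) + 3 := by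
      linear_combination h5 - 9 * (n ^ 3 + 2 * c + 1) * hc
    rcases Int.even_or_odd' x with ⟨d, rfl | rfl⟩
    · have : (2 * d) ^ 2 = 4 * d ^ 2 := by ring
      omega
    · have : (2 * d + 1) ^ 2 = 4 * (d ^ 2 + d) + 1 := by ring
      omega
  by_cases hA : 3 ∣ 3 * n ^ 3 + 10 * m ^ 3 - x
  · refine core m n (-x) hmn hn h3 (by linarith) fun hB => h3 ?_
    exact Int.prime_three.dvd_of_dvd_pow (n := 3) (by omega)
  · exact core m n x hmn hn h3 h5 hA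

theorem oddy {x y z : ℤ} (hyz : IsCoprime y z)
    (h : 1 ^ 2 * x ^ 4 + 3 * y ^ 3 + (1 * z) ^ 3 = 0) (hf : Fac 3 1 (1, 0, 0) y z)
    (hy : ¬ 2 ∣ y) : False := by
  obtain ⟨a, ha⟩ := hf
  simp only [m3, p4, Prod.mk.injEq] at ha
  obtain ⟨h0, h1, h2⟩ := ha
  push_cast at h0 h1 h2
  refine nosq hyz h hy (m3 3 a a).1 (m3 3 a a).2.1 (m3 3 a a).2.2 ?_ ?_ ?_ <;> simp only [m3]
  · linear_combination h0
  · linear_combination h1
  · linear_combination h2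

theorem evenz {x y z : ℤ} (hyz : IsCoprime y z)
    (h : 1 ^ 2 * x ^ 4 + 3 * y ^ 3 + (1 * z) ^ 3 = 0) (hf : Fac 3 1 (1, 0, 0) y z) (hz : Even z) :
    False :=
  oddy hyz h hf fun hy => Int.prime_two.not_isUnit (hyz.isUnit_of_dvd' hy hz.two_dvd)

end Pool.Agent.Lib.MP_ab8df0_nt.T.B20e
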